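import Pool.Agent.BEH.StmtsD
import Pool.Agent.Helper35_BEH.POS

set_option autoImplicit false

/-!
# Squad BEH (MP_be01ff_an), row POD: the strong maximum principle, every dimension

Copy of row POS (helper35).
-/

namespace Pool.Agent.BEH.H58

open Set Filter Topology MeasureTheory
open scoped InnerProductSpace ENNReal
open Pool.Agent.BE01 Pool.Agent.BEL

theorem pod (leb : LebStmt) (mvd : MvdStmt) : PodStmt := by
  intro d Ω ι G l B hd hΩ hΩc hι hl hB hG hne
  have hd0 : 0 < d := by omega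
  have hΩo : IsOpen Ω := hΩ.1
  have hΩm : MeasurableSet Ω := hΩo.measurableSet
  let g : En d → ℝ := fun y => ι G y
  have hgm : Measurable g := (Lp.stronglyMeasurable (ι G)).measurable
  let f : En d → ℝ := Ω.indicator fun y => max 0 (min (g y) |B|)
  have hfm : Measurable f :=
    (measurable_const.max (hgm.min measurable_const)).indicator hΩm
  have hf0 : ∀ y, 0 ≤ f y := fun y => Set.indicator_nonneg (fun y _ => le_max_left _ _) y
  have hfB : ∀ y, f y ≤ |B| := by
    intro y
    refine Set.indicator_le' (f := fun y => max 0 (min (g y) |B|)) (g := fun _ => |B|) ?_ ?_ y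
    · intro y _
      exact max_le (abs_nonneg B) (min_le_right _ _)
    · intro y _
      exact abs_nonneg B
  have hBm : Bm |B| f := ⟨hfm, fun y => by rw [abs_of_nonneg (hf0 y)]; exact hfB y⟩
  have hfg : f =ᵐ[mu Ω] g := by
    have h1 : ∀ᵐ y ∂(mu Ω), y ∈ Ω := ae_restrict_mem hΩm
    filter_upwards [h1, hB] with y hy hy2
    simp only [f, Set.indicator_of_mem hy]
    rw [min_eq_left (hy2.2.trans (le_abs_self B)), max_eq_right hy2.1]
  have hleb : ∀ᵐ x, Leb f x := leb d |B| f hd0 hBm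
  have key : ∀ x R, 0 < R → Metric.closedBall x R ⊆ Ω → Leb f x → f x = 0 →
      ∀ᵐ y, ‖y - x‖ < R → f y = 0 := fun x R hR hx hL hx0 =>
    mvd d Ω ι G |B| f x R hd hΩ hι hBm hf0 hfg
      (fun ψ hψ hψ0 => H35.pos_weak hι hl (hB.mono fun y h => h.1) hG ψ hψ hψ0) hR hx hL hx0
  let Z : Set (En d) := {x | ∃ r, 0 < r ∧ ∀ᵐ y, ‖y - x‖ < r → f y = 0}
  have hZo : IsOpen Z := by
    rw [Metric.isOpen_iff]
    rintro x ⟨r, hr, hx⟩
    refine ⟨r / 2, by positivity, fun z hz => ⟨r / 2, by positivity, ?_⟩⟩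
    filter_upwards [hx] with y hy hyz
    refine hy ?_
    have h1 : ‖z - x‖ < r / 2 := by rwa [← dist_eq_norm]
    have h2 : y - x = (y - z) + (z - x) := by abel
    rw [h2]
    exact (norm_add_le _ _).trans_lt (by linarith)
  by_contra hcon
  -- a point where `f` vanishes
  have hZne : (Ω ∩ Z).Nonempty := by
    by_contra hemp
    apply hcon
    refine (ae_restrict_iff' hΩm).mpr ?_
    have h1 := (ae_restrict_iff' hΩm).mp hB
    have h2 := (ae_restrict_iff' hΩm).mp hfg
    filter_upwards [hleb, h1, h2] with x hx1 hx2 hx3 hxΩ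
    refine lt_of_le_of_ne (hx2 hxΩ).1 fun h0 => hemp ?_
    obtain ⟨R, hR, hRΩ⟩ := Metric.nhds_basis_closedBall.mem_iff.mp (hΩo.mem_nhds hxΩ)
    refine ⟨x, hxΩ, R, hR, key x R hR hRΩ hx1 ?_⟩
    rw [hx3 hxΩ]
    exact h0.symm
  have hZcl : closure Z ∩ Ω ⊆ Z := by
    rintro y ⟨hyZ, hyΩ⟩
    obtain ⟨R', hR', hRΩ⟩ := Metric.nhds_basis_closedBall.mem_iff.mp (hΩo.mem_nhds hyΩ)
    set R := R' / 2 with hR
    have hR0 : 0 < R := by positivity
    obtain ⟨z, ⟨r, hr, hz⟩, hzy⟩ := Metric.mem_closure_iff.mp hyZ (R / 2) (by positivity)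
    have hzy' : dist z y < R / 2 := by rwa [dist_comm]
    have hρ : 0 < min r (R / 2 - dist z y) := lt_min hr (by linarith)
    have hpos : 0 < volume (Metric.ball z (min r (R / 2 - dist z y))) :=
      Metric.measure_ball_pos _ _ hρ
    have hex : ∃ x ∈ Metric.ball z (min r (R / 2 - dist z y)),
        Leb f x ∧ (‖x - z‖ < r → f x = 0) := by
      by_contra hno
      push Not at hno
      have h1 : ∀ᵐ x, x ∉ Metric.ball z (min r (R / 2 - dist z y)) := by
        filter_upwards [hleb, hz] with x hx1 hx2 hx3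
        obtain ⟨h3, h4⟩ := hno x hx3 hx1
        exact h4 (hx2 h3)
      have h2 : volume (Metric.ball z (min r (R / 2 - dist z y))) = 0 := by
        refine measure_mono_null (fun x hx => ?_) (ae_iff.mp h1)
        exact fun h => h hx
      exact hpos.ne' h2
    obtain ⟨x, hxb, hxL, hx0⟩ := hex
    rw [Metric.mem_ball] at hxb
    have hx1 : dist x z < r := hxb.trans_le (min_le_left _ _)
    have hx2 : dist x z < R / 2 - dist z y := hxb.trans_le (min_le_right _ _)
    have hxy : dist x y < R / 2 := (dist_triangle x z y).trans_lt (by linarith)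
    have hx3 : f x = 0 := hx0 (by rwa [← dist_eq_norm])
    have hsub : Metric.closedBall x R ⊆ Ω := by
      refine (fun w hw => hRΩ ?_)
      rw [Metric.mem_closedBall] at hw ⊢
      calc dist w y ≤ dist w x + dist x y := dist_triangle _ _ _
        _ ≤ R' := by linarith
    refine ⟨R / 2, by positivity, ?_⟩
    filter_upwards [key x R hR0 hsub hxL hx3] with w hw hwy
    refine hw ?_
    rw [← dist_eq_norm] at hwy ⊢
    calc dist w x ≤ dist w y + dist y x := dist_triangle _ _ _
      _ < R := by rw [dist_comm y x]; linarith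
  have hsub : Ω ⊆ Z := hΩc.isPreconnected.subset_of_closure_inter_subset hZo hZne hZcl
  have hnull : volume {y | y ∈ Ω ∧ f y ≠ 0} = 0 := by
    refine measure_null_of_locally_null _ fun x hx => ?_
    obtain ⟨r, hr, hxr⟩ := hsub hx.1
    refine ⟨{y | y ∈ Ω ∧ f y ≠ 0} ∩ Metric.ball x r,
      inter_mem self_mem_nhdsWithin (mem_nhdsWithin_of_mem_nhds (Metric.ball_mem_nhds x hr)), ?_⟩
    refine measure_mono_null ?_ (ae_iff.mp hxr)
    rintro y ⟨hy1, hy2⟩
    refine fun h => ?_
    refine hy1.2 (h ?_)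
    rwa [← dist_eq_norm]
  apply hne
  refine Lp.ext ?_
  have h1 : ∀ᵐ y ∂(mu Ω), f y = 0 := by
    refine (ae_restrict_iff' hΩm).mpr ?_
    have h2 : ∀ᵐ y : En d, ¬ (y ∈ Ω ∧ f y ≠ 0) := by
      rw [ae_iff]
      simpa using hnull
    filter_upwards [h2] with y hy hyΩ
    by_contra h
    exact hy ⟨hyΩ, h⟩
  filter_upwards [h1, hfg, Lp.coeFn_zero ℝ 2 (mu Ω)] with y h2 h3 h4
  rw [h4, Pi.zero_apply, ← h2, h3]

end Pool.Agent.BEH.H58
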